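import Pool.Agent.Q86.HModEx

set_option autoImplicit false

open Pool.Agent.Q86.HMod

/-- A contractive idempotent onto a closed ternary subspace that does not extend to a blockwise
conditional expectation; in fact there is no blockwise conditional expectation at all. -/
theorem Pool.Agent.Results.MP_035205_an.NotExt.result :
    ∃ (B : Type) (_ : NonUnitalCStarAlgebra B) (E : HilbertModule.{0, 0} B)
      (F : Submodule ℂ E.carrier) (P : E.carrier →ₗ[ℂ] E.carrier),
      IsTernary E F ∧ IsIdempotentOnto E F P ∧ (∀ x, ‖P x‖ ≤ ‖x‖) ∧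
      ¬ ExtendsToCE E F P ∧ ¬ ∃ Φ, IsBlockwiseCE E F Φ := by
  have hξ : ‖(lp.single 2 (0 : ℕ) (1 : ℂ) : lp (fun _ : ℕ => ℂ) 2)‖ = 1 := by
    rw [lp.norm_single (by norm_num)]; simp
  have hinf : ¬ FiniteDimensional ℂ (lp (fun _ : ℕ => ℂ) 2) := by
    intro h
    have h1 : Orthonormal ℂ (fun n : ℕ => (lp.single 2 n (1 : ℂ) : lp (fun _ : ℕ => ℂ) 2)) := by
      rw [orthonormal_iff_ite]
      intro i j
      rw [lp.inner_single_left, lp.single_apply]
      by_cases hij : i = j
      · subst hij; simp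
      · simp [hij]
    have h2 := h1.linearIndependent.finite
    exact not_finite ℕ
  obtain ⟨B, hB, E, F, P, h1, h2, h3, h4⟩ := exists_not_extends hξ hinf
  exact ⟨B, hB, E, F, P, h1, ⟨h2, h3⟩, h4⟩
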